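import Pool.Agent.H71.CQ.Basic

/-!
# The levels of the algebraic part
-/

set_option autoImplicit false

open Set

namespace Pool.Agent.H11.CQ

open Pool.Agent.H71.CQ

theorem lv_fin (hDEG : T_DEG) {L : Type} {N : NF L} (hN : N.Sep) {V : Type} {e : V → V → L}
    (he : Mem N e) (r : ℕ → L) (n d : ℕ) : (Lv N e r n d).Finite := by
  induction d with
  | zero =>
    have hs : Lv N e r n 0 ⊆ ⋃ i ∈ Finset.range (n + 1),
        {x | e x x = r i ∧ (Srt e (r i)).Finite} := by
      rintro x ⟨⟨i, hi, hx⟩, hf⟩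
      refine Set.mem_biUnion (x := i) ?_ ?_
      · exact Finset.mem_coe.2 (Finset.mem_range.2 (by omega))
      · refine ⟨hx, ?_⟩
        rw [← hx]
        exact hf
    refine Set.Finite.subset (Set.Finite.biUnion (Finset.finite_toSet _) ?_) hs
    intro i _
    by_cases hf : (Srt e (r i)).Finite
    · exact hf.subset fun x hx => hx.1
    · refine Set.Finite.subset Set.finite_empty ?_
      rintro x ⟨_, hx⟩
      exact absurd hx hf
  | succ d ih =>
    have hs : {y | ∃ x ∈ Lv N e r n d, ∃ i, i ≤ n ∧ e x y = r i ∧ ¬ Op N (e x y)} ⊆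
        ⋃ x ∈ Lv N e r n d, ⋃ i ∈ Finset.range (n + 1), {y | e x y = r i ∧ ¬ Op N (r i)} := by
      rintro y ⟨x, hx, i, hi, hy, ho⟩
      refine Set.mem_biUnion hx (Set.mem_biUnion (x := i) ?_ ?_)
      · exact Finset.mem_coe.2 (Finset.mem_range.2 (by omega))
      · refine ⟨hy, ?_⟩
        rw [← hy]
        exact ho
    refine Set.Finite.union ih (Set.Finite.subset (Set.Finite.biUnion ih ?_) hs)
    intro x _
    refine Set.Finite.biUnion (Finset.finite_toSet _) ?_
    intro i _
    by_cases ho : Op N (r i)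
    · refine Set.Finite.subset Set.finite_empty ?_
      rintro y ⟨_, hy⟩
      exact absurd ho hy
    · exact (hDEG L N hN V V e e he he x x rfl (r i) ho).1.subset fun y hy => hy.1

theorem lv_mono_n {L : Type} {N : NF L} {V : Type} {e : V → V → L} (r : ℕ → L) (n n' d : ℕ)
    (h : n ≤ n') : Lv N e r n d ⊆ Lv N e r n' d := by
  induction d with
  | zero =>
    rintro x ⟨⟨i, hi, hx⟩, hf⟩
    exact ⟨⟨i, le_trans hi h, hx⟩, hf⟩
  | succ d ih =>
    rintro y (hy | ⟨x, hx, i, hi, hy, ho⟩)
    · exact Or.inl (ih hy)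
    · exact Or.inr ⟨x, ih hx, i, le_trans hi h, hy, ho⟩

theorem lv_mono_d {L : Type} {N : NF L} {V : Type} {e : V → V → L} (r : ℕ → L) (n d d' : ℕ)
    (h : d ≤ d') : Lv N e r n d ⊆ Lv N e r n d' := by
  induction d', h using Nat.le_induction with
  | base => exact Subset.rfl
  | succ k _ ih => exact ih.trans fun x hx => Or.inl hx

theorem lv_mono {L : Type} {N : NF L} {V : Type} {e : V → V → L} (r : ℕ → L) (n d n' d' : ℕ)
    (h : n ≤ n') (h' : d ≤ d') : Lv N e r n d ⊆ Lv N e r n' d' :=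
  (lv_mono_n r n n' d h).trans (lv_mono_d r n' d d' h')

theorem lv_wp {L : Type} {N : NF L} {V : Type} {e : V → V → L} (r : ℕ → L) (n d : ℕ) (x : V)
    (h : x ∈ Lv N e r n d) : Wp N e x := by
  induction d generalizing x with
  | zero => exact Wp.base x h.2
  | succ d ih =>
    rcases h with h | ⟨y, hy, i, _, _, ho⟩
    · exact ih x h
    · exact Wp.step y x (ih y hy) ho

/-- LVF. The levels are finite, increase and exhaust the algebraic part. -/
theorem pf_LVF (hDEG : T_DEG) : T_LVF := by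
  intro L N hN V e he r hr
  refine ⟨fun n d => lv_fin hDEG hN he r n d, fun n d n' d' h h' => lv_mono r n d n' d' h h', ?_⟩
  intro x
  constructor
  · intro hx
    induction hx with
    | base x hf =>
      obtain ⟨i, hi⟩ := hr x x
      refine ⟨i, ?_⟩
      exact lv_mono_d r i 0 i (Nat.zero_le i) ⟨⟨i, le_rfl, hi⟩, hf⟩
    | step x y _ ho ih =>
      obtain ⟨n, hn⟩ := ih
      obtain ⟨i, hi⟩ := hr x y
      have h1 : x ∈ Lv N e r (max n i) (max n i) :=
        lv_mono r n n _ _ (le_max_left _ _) (le_max_left _ _) hn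
      refine ⟨max n i + 1, ?_⟩
      apply lv_mono_n r (max n i) (max n i + 1) (max n i + 1) (Nat.le_succ _)
      exact Or.inr ⟨x, h1, i, le_max_right _ _, hi, ho⟩
  · rintro ⟨n, hn⟩
    exact lv_wp r n n x hn

end Pool.Agent.H11.CQ
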